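import Pool.Agent.H75.ERG.Targets

/-!
`MP_009700_an`: invariant functions of polygonal billiards, row C_GB (the derivative along the
direction).
-/

set_option autoImplicit false

namespace Pool.Agent.H45.EG

open MeasureTheory Set Metric Filter Topology Pool.Agent.H93.BL
open Pool.Agent.H93.EN (av md rf chi gchi Bd Ml Nl Inv Agr sg VV Chart LS Phi)
open Pool.Agent.H93.EG (InvG Sm gN hN nrm)
open Pool.Agent.H75.ERG

theorem gb (hG : T_GLN) (hNB : T_NB) (hPSI : T_PSI) (hBD : T_BDG) : T_GB := by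
  intro ι P κ Λ a L δ K F m hA x hx w hw
  obtain ⟨hpc, hp01, -, -, -, hDK, hlip⟩ := hPSI K hA.K1
  have hM0 : 0 ≤ DK K (m x w) / L := div_nonneg (hDK _).1 hA.L0.le
  rcases XG_cases P κ a hA.ls (cutG K F m) x hx with ⟨-, h⟩ | ⟨ha, τ, hτ, h⟩
  · rw [h]
    have e : Nl (fun _ _ => 0) δ x w = 0 := by
      unfold Nl
      simp
    rw [e, zero_mul, Complex.zero_re, abs_zero]
    exact hM0
  · rw [h]
    have hcm : Measurable (Function.uncurry (cutG K F m)) := by
      have h1 : Measurable (Function.uncurry F) := hA.inv.meas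
      have h2 : Measurable (Function.uncurry m) := hA.cost.meas
      exact h1.mul (hpc.measurable.comp h2)
    have hcb : ∀ y w, 0 ≤ cutG K F m y w ∧ cutG K F m y w ≤ 1 := by
      intro y w
      obtain ⟨h1, h2⟩ := hA.inv.bd y w
      obtain ⟨h3, h4⟩ := hp01 (m y w)
      unfold cutG
      exact ⟨mul_nonneg h1 h3, mul_le_one₀ h2 h3 h4⟩
    have hco : ∀ y w, y ∉ P.Ω → cutG K F m y w = 0 := by
      intro y w hy
      unfold cutG
      rw [hA.inv.out y w hy, zero_mul]
    have hB : Bd (Phi P (cutG K F m) τ) := hBD ι P _ hcm hcb hco τ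
    have hBF : Bd (Phi P F τ) := hBD ι P F hA.inv.meas hA.inv.bd hA.inv.out τ
    obtain ⟨n1, n2, n3⟩ := hNB ι P κ Λ a L δ K F m hA x hx ha τ hτ w hw
    refine hG _ hB δ x w _ hA.δ0 hw hM0 ?_
    intro t ht
    have n1' : ∀ᵐ y : ℂ, y + (t : ℂ) * w ∈ ball x (2 * δ) →
        |Phi P m τ (y + (t : ℂ) * w) w - m x w| ≤ Λ * ‖(y + (t : ℂ) * w) - x‖ / a ∧
          |Phi P m τ (y + (t : ℂ) * w) w - m x w| ≤ 1 / 4 :=
      (measurePreserving_add_right (volume : Measure ℂ) ((t : ℂ) * w)).quasiMeasurePreserving.ae n1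
    filter_upwards [n1, n1', n3 t ht] with y h1 h1' h3 hy
    have hy2 : y ∈ ball x (2 * δ) := by
      rw [mem_ball] at hy ⊢
      linarith [hA.δ0]
    have hy3 : y + (t : ℂ) * w ∈ ball x (2 * δ) := by
      rw [mem_ball, dist_eq_norm] at hy ⊢
      have e : y + (t : ℂ) * w - x = (y - x) + (t : ℂ) * w := by ring
      rw [e]
      refine (norm_add_le _ _).trans_lt ?_
      rw [norm_mul, hw, mul_one, Complex.norm_real, Real.norm_eq_abs]
      linarith
    obtain ⟨-, h1⟩ := h1 hy2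
    obtain ⟨-, h1'⟩ := h1' hy3
    obtain ⟨h3, h4⟩ := h3 hy
    rw [n2, n2, h4, ← mul_sub, abs_mul]
    have h5 := hlip (Phi P m τ (y + (t : ℂ) * w) w) (Phi P m τ y w) (m x w)
      (h1'.trans (by norm_num)) (h1.trans (by norm_num))
    obtain ⟨h6, h7⟩ := hBF.2.1 y w
    have h8 : |Phi P F τ y w| ≤ 1 := by rw [abs_of_nonneg h6]; exact h7
    calc |Phi P F τ y w| * |psi K (Phi P m τ (y + (t : ℂ) * w) w) - psi K (Phi P m τ y w)|
        ≤ 1 * (DK K (m x w) * |Phi P m τ (y + (t : ℂ) * w) w - Phi P m τ y w|) :=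
          mul_le_mul h8 h5 (abs_nonneg _) zero_le_one
      _ ≤ 1 * (DK K (m x w) * (|t| / L)) := by
          rw [one_mul, one_mul]
          exact mul_le_mul_of_nonneg_left h3 (hDK _).1
      _ = DK K (m x w) / L * |t| := by ring

end Pool.Agent.H45.EG
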